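import Pool.Agent.Lib.MP_28303a_al.TW.Lemmas

/-! # ELIMW: Lazard elimination for a multiplicative set of letters -/

set_option autoImplicit false
set_option linter.unusedSectionVars false

namespace Pool.Agent.NegK.TW.H82

open Pool.Agent.NegK
open Matrix MonoidAlgebra

universe u v

section Abstract

variable {E : Type u} [Ring E] {M : Type v} [AddCommGroup M]

/-- The letters after the elimination of the letter `a`. -/
def newL {J : Type} (r : ℕ) (a : J) (N : J → E) : Fin r × {j : J // j ≠ a} → E :=
  fun p => N a ^ (p.1 : ℕ) * N p.2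

/-- Words in the new letters are words in the old ones of the same weight. -/
theorem new_wordL {J : Type} (r : ℕ) (a : J) (N : J → E) (ω : J → ℕ)
    (w : List (Fin r × {j : J // j ≠ a})) :
    ∃ w' : List J, (w ≠ [] → w' ≠ []) ∧
      (w'.map ω).sum = (w.map fun p => (p.1 : ℕ) * ω a + ω p.2).sum ∧
      (w.map (newL r a N)).prod = (w'.map N).prod := by
  induction w with
  | nil => exact ⟨[], fun h => absurd rfl h, rfl, by simp⟩
  | cons p w ih =>
    obtain ⟨w', -, h2, h3⟩ := ih
    refine ⟨List.replicate (p.1 : ℕ) a ++ (p.2 : J) :: w', fun _ => by simp, ?_, ?_⟩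
    · rw [List.map_append, List.sum_append, List.map_replicate, List.sum_replicate, List.map_cons,
        List.sum_cons, List.map_cons, List.sum_cons, h2, smul_eq_mul]
      ring
    · rw [List.map_cons, List.prod_cons, h3, List.map_append, List.prod_append, List.map_replicate,
        List.prod_replicate, List.map_cons, List.prod_cons]
      unfold newL
      rw [mul_assoc]

theorem pow_mul_mem (L : Set E) (hL : ∀ m ∈ L, ∀ m' ∈ L, m * m' ∈ L) {x y : E} (hx : x ∈ L)
    (hy : y ∈ L) (i : ℕ) : x ^ i * y ∈ L := by
  induction i with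
  | zero => rwa [pow_zero, one_mul]
  | succ i ih =>
    rw [pow_succ', mul_assoc]
    exact hL x hx _ ih

theorem coreL (L : Set E) (hL : ∀ m ∈ L, ∀ m' ∈ L, m * m' ∈ L) (f : E → M)
    (hmul : ∀ a b, IsUnit a → IsUnit b → f (a * b) = f a + f b)
    (h1 : ∀ m ∈ L, IsNilpotent m → f (1 - m) = 0) (r : ℕ) :
    ∀ (e d : ℕ), 1 ≤ d → r ≤ d + e → ∀ (c : ℕ) (J : Type) [Fintype J] [DecidableEq J]
      (N : J → E) (ω : J → ℕ), (∀ j, N j ∈ L) → (∀ j, d ≤ ω j) →
      (Finset.univ.filter fun j => ω j = d).card = c →
      (∀ w : List J, w ≠ [] → r ≤ (w.map ω).sum → (w.map N).prod = 0) →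
      IsUnit (1 - ∑ j, N j) ∧ f (1 - ∑ j, N j) = 0 := by
  have hf1 : f 1 = 0 := by
    have := hmul 1 1 isUnit_one isUnit_one
    rw [mul_one] at this
    exact left_eq_add.1 this
  -- the trivial case
  have triv : ∀ (d : ℕ), r ≤ d → ∀ (J : Type) [Fintype J] (N : J → E) (ω : J → ℕ),
      (∀ j, d ≤ ω j) → (∀ w : List J, w ≠ [] → r ≤ (w.map ω).sum → (w.map N).prod = 0) →
      IsUnit (1 - ∑ j, N j) ∧ f (1 - ∑ j, N j) = 0 := by
    intro d hd J _ N ω hω hw
    have h0 : ∑ j, N j = 0 := by
      refine Finset.sum_eq_zero fun j _ => ?_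
      have := hw [j] (by simp) (by simpa using hd.trans (hω j))
      rwa [List.map_singleton, List.prod_singleton] at this
    rw [h0, sub_zero]
    exact ⟨isUnit_one, hf1⟩
  intro e
  induction e with
  | zero =>
    intro d _ hr c J _ _ N ω _ hω _ hw
    exact triv d hr J N ω hω hw
  | succ e ihe =>
    intro d hd1 hr c
    by_cases hrd : r ≤ d
    · intro J _ _ N ω _ hω _ hw
      exact triv d hrd J N ω hω hw
    push Not at hrd
    induction c with
    | zero =>
      intro J _ _ N ω hNL hω hcard hw
      refine ihe (d + 1) (by omega) (by omega) _ J N ω hNL (fun j => ?_) rfl hw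
      have h2 := Finset.card_eq_zero.1 hcard
      have h3 : ω j ≠ d := fun h => by
        have : j ∈ Finset.univ.filter fun j => ω j = d := by simp [h]
        rw [h2] at this
        exact absurd this (Finset.notMem_empty _)
      have := hω j
      omega
    | succ c ihc =>
      intro J _ _ N ω hNL hω hcard hw
      obtain ⟨a, ha⟩ : (Finset.univ.filter fun j => ω j = d).Nonempty := by
        rw [← Finset.card_pos, hcard]
        omega
      have hωa : ω a = d := (Finset.mem_filter.1 ha).2
      -- `N a` is nilpotent
      have hyr : N a ^ r = 0 := by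
        have := hw (List.replicate r a) (by
          intro h
          have := congrArg List.length h
          simp at this
          omega) (by
          rw [List.map_replicate, List.sum_replicate, smul_eq_mul, hωa]
          exact Nat.le_mul_of_pos_right r hd1)
        rwa [List.map_replicate, List.prod_replicate] at this
      set V : E := ∑ i ∈ Finset.range r, N a ^ i with hV
      have hUV : (1 - N a) * V = 1 := by rw [hV, mul_neg_geom_sum, hyr, sub_zero]
      have hVU : V * (1 - N a) = 1 := by rw [hV, geom_sum_mul_neg, hyr, sub_zero]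
      have hU : IsUnit (1 - N a) := ⟨⟨1 - N a, V, hUV, hVU⟩, rfl⟩
      have hfU : f (1 - N a) = 0 := h1 _ (hNL a) ⟨r, hyr⟩
      -- the new family
      have key := ihc (Fin r × {j : J // j ≠ a}) (newL r a N)
        (fun p => (p.1 : ℕ) * ω a + ω p.2) (fun p => pow_mul_mem L hL (hNL a) (hNL _) _)
        (fun p => (hω _).trans (Nat.le_add_left _ _)) ?_ ?_
      · have hsum : V * (1 - ∑ j, N j) =
            1 - ∑ p : Fin r × {j : J // j ≠ a}, newL r a N p := by
          have e1 : ∑ j, N j = N a + ∑ j : {j : J // j ≠ a}, N j := by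
            rw [← Finset.add_sum_erase Finset.univ _ (Finset.mem_univ a)]
            congr 1
            refine (Finset.sum_subtype (p := fun j => j ≠ a) (Finset.univ.erase a) (fun j => by simp)
              fun j => N j)
          have e2 : V * ∑ j : {j : J // j ≠ a}, N j =
              ∑ p : Fin r × {j : J // j ≠ a}, newL r a N p := by
            rw [Fintype.sum_prod_type, hV, Finset.sum_range, Finset.sum_mul]
            refine Finset.sum_congr rfl fun i _ => ?_
            rw [Finset.mul_sum]
            rfl
          rw [e1, ← sub_sub, mul_sub, hVU, e2]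
        have h2 : 1 - ∑ j, N j = (1 - N a) *
            (1 - ∑ p : Fin r × {j : J // j ≠ a}, newL r a N p) := by
          rw [← hsum, ← mul_assoc, hUV, one_mul]
        rw [h2]
        refine ⟨hU.mul key.1, ?_⟩
        rw [hmul _ _ hU key.1, hfU, key.2, add_zero]
      · -- the number of letters of weight `d`
        have hr0 : 0 < r := by omega
        have hc2 : (Finset.univ.filter fun p : Fin r × {j : J // j ≠ a} =>
            (p.1 : ℕ) * ω a + ω p.2 = d).card = ((Finset.univ.filter fun j => ω j = d).erase a).card := by
          refine Finset.card_bij (fun p _ => (p.2 : J)) ?_ ?_ ?_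
          · intro p hp
            have hp' := (Finset.mem_filter.1 hp).2
            have := hω (p.2 : J)
            refine Finset.mem_erase.2 ⟨p.2.2, Finset.mem_filter.2 ⟨Finset.mem_univ _, ?_⟩⟩
            omega
          · intro p hp q hq hpq
            have hp' := (Finset.mem_filter.1 hp).2
            have hq' := (Finset.mem_filter.1 hq).2
            have h3 := hω (p.2 : J)
            have h4 := hω (q.2 : J)
            have h5 : (p.1 : ℕ) * ω a = 0 := by omega
            have h6 : (q.1 : ℕ) * ω a = 0 := by omega
            have hωa0 : ω a ≠ 0 := by omega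
            have h7 : (p.1 : ℕ) = 0 := (Nat.mul_eq_zero.1 h5).resolve_right hωa0
            have h8 : (q.1 : ℕ) = 0 := (Nat.mul_eq_zero.1 h6).resolve_right hωa0
            exact Prod.ext (Fin.ext (h7.trans h8.symm)) (Subtype.ext hpq)
          · intro j hj
            obtain ⟨hja, hj⟩ := Finset.mem_erase.1 hj
            have hj' := (Finset.mem_filter.1 hj).2
            exact ⟨(⟨0, hr0⟩, ⟨j, hja⟩), Finset.mem_filter.2 ⟨Finset.mem_univ _, by simpa using hj'⟩, rfl⟩
        rw [hc2, Finset.card_erase_of_mem ha, hcard]
        rfl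
      · intro w hne hwt
        obtain ⟨w', g1, g2, g3⟩ := new_wordL r a N ω w
        rw [g3, hw w' (g1 hne) (by rw [g2]; exact hwt)]

end Abstract

/-- ELIMW. -/
theorem elimw : ElimwStatement.{u} := by
  intro A _ M _ χ J _ _ L hL h1 d l hl hw
  have key := coreL L hL (fun α => χ.val α) (fun a b ha hb => χ.mul a b ha hb) h1 d d 1 le_rfl
    (by omega) _ (Fin l.length) (fun i => l.get i) (fun _ => 1) (fun i => hl _ (List.get_mem l i))
    (fun _ => le_rfl) rfl ?_
  · have h2 : ∑ i : Fin l.length, l.get i = l.sum := by
      rw [← List.sum_ofFn, List.ofFn_get]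
    rw [h2] at key
    exact key.2
  · intro w hne hwt
    rw [List.map_const', List.sum_replicate, smul_eq_mul, mul_one] at hwt
    have h2 : w = w.take d ++ w.drop d := (List.take_append_drop d w).symm
    rw [h2, List.map_append, List.prod_append, hw ((w.take d).map fun i => l.get i) (fun m hm => by
      obtain ⟨i, -, rfl⟩ := List.mem_map.1 hm
      exact List.get_mem l i) (by rw [List.length_map, List.length_take]; omega), zero_mul]

end Pool.Agent.NegK.TW.H82
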