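import Pool.Agent.Lib.MP_28303a_al.TW.Lemmas
import Pool.Agent.Lib.MP_28303a_al.WR.H30.Rows

/-! # FIN: regular coherent stabilizers -/

set_option autoImplicit false
set_option linter.unusedSectionVars false

namespace Pool.Agent.NegK.TW.H82

open Pool.Agent.NegK
open Matrix MonoidAlgebra

universe u v

/-! ### Coefficients -/

theorem coeff_swp {k Γ : Type u} [Ring k] [Group Γ] (x : LG k Γ) (n : ℤ) (g : Γ) :
    ((swp k Γ x).coeff n).coeff g = (x.coeff g).coeff n := by
  classical
  induction x using MonoidAlgebra.induction_linear with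
  | zero => rw [map_zero]; rfl
  | add x y hx hy =>
    rw [map_add, AddMonoidAlgebra.coeff_add, Finsupp.add_apply, MonoidAlgebra.coeff_add,
      Finsupp.add_apply, hx, hy, MonoidAlgebra.coeff_add, Finsupp.add_apply,
      AddMonoidAlgebra.coeff_add, Finsupp.add_apply]
  | single h y =>
    induction y using AddMonoidAlgebra.induction_linear with
    | zero =>
      rw [MonoidAlgebra.single_zero, map_zero]; rfl
    | add x y hx hy =>
      rw [MonoidAlgebra.single_add, map_add, AddMonoidAlgebra.coeff_add, Finsupp.add_apply,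
        MonoidAlgebra.coeff_add, Finsupp.add_apply, hx, hy, MonoidAlgebra.coeff_add,
        Finsupp.add_apply, AddMonoidAlgebra.coeff_add, Finsupp.add_apply]
    | single m r =>
      have h1 : swp k Γ (single h (AddMonoidAlgebra.single m r)) =
          AddMonoidAlgebra.single m (single h r) := swap_single k h m r
      rw [h1, AddMonoidAlgebra.coeff_single, Finsupp.single_apply, MonoidAlgebra.coeff_single,
        Finsupp.single_apply]
      by_cases hm : m = n
      · rw [if_pos hm]
        by_cases hh : h = g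
        · rw [if_pos hh, MonoidAlgebra.coeff_single, Finsupp.single_apply, if_pos hh,
            AddMonoidAlgebra.coeff_single, Finsupp.single_apply, if_pos hm]
        · rw [if_neg hh, MonoidAlgebra.coeff_single, Finsupp.single_apply, if_neg hh]
          rfl
      · rw [if_neg hm]
        by_cases hh : h = g
        · rw [if_pos hh, AddMonoidAlgebra.coeff_single, Finsupp.single_apply, if_neg hm]
          rfl
        · rw [if_neg hh]
          rfl

/-! ### Images of submodules -/

section images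

variable {A : Type u} [Ring A] {M M₁ M₂ : Type u} [AddCommGroup M] [AddCommGroup M₁]
  [AddCommGroup M₂] [Module A M] [Module A M₁] [Module A M₂]

/-- Two maps with the same kernel on `L` have isomorphic images. -/
theorem exists_map_equiv (L : Submodule A M) (f : M →ₗ[A] M₁) (g : M →ₗ[A] M₂)
    (h : ∀ x ∈ L, f x = 0 ↔ g x = 0) : Nonempty (L.map f ≃ₗ[A] L.map g) := by
  have h1 : LinearMap.range (f ∘ₗ L.subtype) = L.map f := by
    rw [LinearMap.range_comp, Submodule.range_subtype]
  have h2 : LinearMap.range (g ∘ₗ L.subtype) = L.map g := by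
    rw [LinearMap.range_comp, Submodule.range_subtype]
  have h3 : LinearMap.ker (f ∘ₗ L.subtype) = LinearMap.ker (g ∘ₗ L.subtype) := by
    ext x
    exact h x.1 x.2
  exact ⟨(LinearEquiv.ofEq _ _ h1).symm ≪≫ₗ (f ∘ₗ L.subtype).quotKerEquivRange.symm ≪≫ₗ
    Submodule.quotEquivOfEq _ _ h3 ≪≫ₗ (g ∘ₗ L.subtype).quotKerEquivRange ≪≫ₗ
    LinearEquiv.ofEq _ _ h2⟩

end images

/-! ### Lattices -/

section lattices

variable {A : Type u} [Ring A]

theorem rmul_mul' {ι κ ρ : Type} [Fintype ι] [Fintype κ] (α : Matrix ι κ (LaurentPolynomial A))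
    (β : Matrix κ ρ (LaurentPolynomial A)) : rmul (α * β) = (rmul β).comp (rmul α) := by
  refine LinearMap.ext fun y => ?_
  show y ᵥ* (α * β) = (y ᵥ* α) ᵥ* β
  rw [Matrix.vecMul_vecMul]

theorem exists_degGe' {ι κ : Type} [Fintype ι] [Fintype κ]
    (α : Matrix ι κ (LaurentPolynomial A)) : ∃ m : ℕ, DegGe m α := by
  classical
  refine ⟨(Finset.univ : Finset (ι × κ)).sup fun x => (α x.1 x.2).coeff.support.sup Int.natAbs,
    fun i j c hc => ?_⟩
  by_contra hne
  have h1 : c.natAbs ≤ (α i j).coeff.support.sup Int.natAbs :=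
    Finset.le_sup (f := Int.natAbs) (Finsupp.mem_support_iff.2 hne)
  have h2 : (α i j).coeff.support.sup Int.natAbs ≤
      (Finset.univ : Finset (ι × κ)).sup fun x => (α x.1 x.2).coeff.support.sup Int.natAbs :=
    Finset.le_sup (f := fun x : ι × κ => (α x.1 x.2).coeff.support.sup Int.natAbs)
      (Finset.mem_univ (i, j))
  omega

/-- Integral matrices. -/
theorem degGe_int {ι κ : Type} (N : Matrix ι κ ℤ) :
    DegGe 0 (N.map (Int.castRingHom (LaurentPolynomial A))) := by
  intro i j c hc
  have h1 : (Int.castRingHom (LaurentPolynomial A)) (N i j) =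
      AddMonoidAlgebra.single (0 : ℤ) ((N i j : ℤ) : A) := by
    rw [eq_intCast]
    have h2 : ((N i j : ℤ) : LaurentPolynomial A) = LaurentPolynomial.C ((N i j : ℤ) : A) :=
      (map_intCast (LaurentPolynomial.C : A →+* LaurentPolynomial A) (N i j)).symm
    rw [h2]
    rfl
  rw [Matrix.map_apply, h1, AddMonoidAlgebra.coeff_single, Finsupp.single_apply, if_neg]
  push_cast at hc
  omega

theorem ge_map_int {ι : Type} [Fintype ι] [DecidableEq ι] (P Q : Matrix ι ι ℤ) (h : Q * P = 1) :
    (Ge A ι 0).map (rmul (P.map (Int.castRingHom (LaurentPolynomial A)))) = Ge A ι 0 := by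
  refine le_antisymm ?_ ?_
  · rintro _ ⟨y, hy, rfl⟩
    have := WR.H30.vecMul_mem (degGe_int (A := A) P) hy
    rw [Nat.cast_zero, sub_zero] at this
    exact this
  · intro y hy
    have h1 := WR.H30.vecMul_mem (degGe_int (A := A) Q) hy
    rw [Nat.cast_zero, sub_zero] at h1
    refine ⟨y ᵥ* Q.map (Int.castRingHom (LaurentPolynomial A)), h1, ?_⟩
    show (y ᵥ* Q.map (Int.castRingHom (LaurentPolynomial A))) ᵥ*
      P.map (Int.castRingHom (LaurentPolynomial A)) = y
    rw [Matrix.vecMul_vecMul, ← Matrix.map_mul, h, Matrix.map_one _ (map_zero _) (map_one _),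
      Matrix.vecMul_one]

end lattices

theorem fin_core {A : Type u} [Ring A] (hlat : LatStatement.{u}) {Λ J : Type} [Fintype Λ]
    [DecidableEq Λ] [Fintype J] [DecidableEq J] (Z : Matrix Λ J (LaurentPolynomial A))
    (α : Matrix J J (LaurentPolynomial A)) (hαu : IsUnit α) (a : J → Λ)
    (ha : ∀ j, Z (a j) = Pi.single j 1) (N : Matrix Λ Λ ℤ) (hN : IsNilpotent N)
    (e1 : Z * α = (1 - N).map (Int.castRingHom (LaurentPolynomial A)) * Z)
    (hcoh : ∀ m : ℕ, ∃ n, HasFPRes A n (LinearMap.range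
      (Matrix.vecMulLinear (Matrix.of fun (x : Λ × Fin m) (y : J × Fin m) =>
        (Z x.1 y.1).coeff (-(m : ℤ) + (y.2 : ℕ) - 0 - (x.2 : ℕ)))))) : ind α = 0 := by
  obtain ⟨m, hm⟩ := exists_degGe' Z
  set L : Submodule A (J → LaurentPolynomial A) := (Ge A Λ 0).map (rmul Z) with hL
  -- the lattice contains `Ge 0`
  have h1 : Ge A J 0 ≤ L := by
    intro y hy
    refine ⟨∑ j, Pi.single (a j) (y j), ?_, ?_⟩
    · refine Submodule.sum_mem _ fun j _ => ?_
      intro l e he
      by_cases hl : l = a j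
      · subst hl
        rw [Pi.single_eq_same]
        exact hy j e he
      · rw [Pi.single_eq_of_ne hl]
        rfl
    · show (∑ j, Pi.single (a j) (y j)) ᵥ* Z = y
      rw [Matrix.sum_vecMul]
      have h2 : ∀ j, (Pi.single (a j) (y j) : Λ → LaurentPolynomial A) ᵥ* Z =
          Pi.single j (y j) := by
        intro j
        rw [Matrix.single_vecMul]
        funext i
        show y j * Z (a j) i = _
        rw [ha j]
        by_cases hij : i = j
        · subst hij
          rw [Pi.single_eq_same, Pi.single_eq_same, mul_one]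
        · rw [Pi.single_eq_of_ne hij, Pi.single_eq_of_ne hij, mul_zero]
      simp only [h2]
      exact Finset.univ_sum_single y
  have h2 : L ≤ Ge A J (-m) := by
    rintro _ ⟨y, hy, rfl⟩
    have := WR.H30.vecMul_mem hm hy
    rwa [zero_sub] at this
  -- invariance
  have h3 : L.map (rmul α) = L := by
    obtain ⟨P, hP1, hP2⟩ : ∃ P : Matrix Λ Λ ℤ, (1 - N) * P = 1 ∧ P * (1 - N) = 1 := by
      obtain ⟨v, hv⟩ := hN.isUnit_one_sub
      exact ⟨v.inv, by rw [← hv]; exact v.mul_inv, by rw [← hv]; exact v.inv_mul⟩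
    rw [hL, ← Submodule.map_comp, ← rmul_mul', e1, rmul_mul', Submodule.map_comp,
      ge_map_int (1 - N) P hP2]
  -- the finite matrix
  set W : Matrix (Λ × Fin m) (J × Fin m) A :=
    Matrix.of fun x y => (Z x.1 y.1).coeff (-(m : ℤ) + (y.2 : ℕ) - 0 - (x.2 : ℕ)) with hW
  have hrow : ∀ v : Λ × Fin m → A, WR.H30.prj (-(m : ℤ)) m ((WR.H30.emb 0 m v) ᵥ* Z) =
      v ᵥ* W := by
    intro v
    funext x
    rw [WR.H30.prj_emb_mul]
    rfl
  have h4 : L.map (WR.H30.prj (-(m : ℤ)) m) = LinearMap.range W.vecMulLinear := by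
    refine le_antisymm ?_ ?_
    · rintro _ ⟨_, ⟨y, hy, rfl⟩, rfl⟩
      refine ⟨WR.H30.prj 0 m y, ?_⟩
      show (WR.H30.prj 0 m y) ᵥ* W = WR.H30.prj (-(m : ℤ)) m (y ᵥ* Z)
      rw [← hrow, WR.H30.emb_prj]
      have h5 : y - WR.H30.cut (fun c => (0 : ℤ) ≤ c ∧ c < 0 + m) y ∈ Ge A Λ m := by
        intro i e he
        rw [Pi.sub_apply, AddMonoidAlgebra.coeff_sub, Finsupp.sub_apply, WR.H30.cut_coeff]
        by_cases h0 : (0 : ℤ) ≤ e
        · rw [if_pos ⟨h0, by omega⟩, sub_self]
        · rw [if_neg (fun h => h0 h.1), hy i e (not_le.1 h0), sub_zero]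
      have h6 := WR.H30.vecMul_mem hm h5
      rw [sub_self, Matrix.sub_vecMul] at h6
      have h7 : WR.H30.prj (-(m : ℤ)) m
          (y ᵥ* Z - WR.H30.cut (fun c => (0 : ℤ) ≤ c ∧ c < 0 + m) y ᵥ* Z) = 0 := by
        funext x
        rw [WR.H30.prj_apply]
        exact h6 x.1 _ (by have := x.2.2; omega)
      rw [map_sub, sub_eq_zero] at h7
      exact h7.symm
    · rintro _ ⟨v, rfl⟩
      refine ⟨(WR.H30.emb 0 m v) ᵥ* Z, ⟨WR.H30.emb 0 m v, ?_, rfl⟩, hrow v⟩
      intro i e he
      rw [WR.H30.emb_coeff]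
      refine Finset.sum_eq_zero fun t _ => if_neg ?_
      omega
  have hker : ∀ x ∈ L, WR.H30.prj (-(m : ℤ)) m x = 0 ↔ (Ge A J 0).mkQ x = 0 := by
    intro x hx
    rw [Submodule.mkQ_apply, Submodule.Quotient.mk_eq_zero]
    constructor
    · intro h i e he
      by_cases h0 : e < -(m : ℤ)
      · exact h2 hx i e h0
      · have h5 := congrFun h (i, ⟨(e + m).toNat, by omega⟩)
        rw [WR.H30.prj_apply] at h5
        have h6 : -(m : ℤ) + (((e + m).toNat : ℕ) : ℤ) = e := by omega
        simp only [h6] at h5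
        exact h5
    · intro h
      funext y
      rw [WR.H30.prj_apply]
      exact h y.1 _ (by have := y.2.2; omega)
  obtain ⟨e⟩ := exists_map_equiv L (WR.H30.prj (-(m : ℤ)) m) (Ge A J 0).mkQ hker
  obtain ⟨n, hn⟩ := hcoh m
  rw [← h4] at hn
  exact hlat A J α hαu m n L h1 h2 h3 (hn.congr e)

/-- FIN. -/
theorem fin (hfam : FamStatement.{u}) (hcoh : CohStatement.{u}) (hrci : RciStatement.{u})
    (hlat : LatStatement.{u}) : FinStatement.{u} := by
  intro k Γ D _ _ _ J _ _ dg μ d hμ hreg
  obtain ⟨Λ, _, _, z, N, c, a, hz, hc, hzμ, hN, ha⟩ := hfam (LaurentPolynomial k) Γ D J dg μ d hμ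
  refine fin_core hlat (z.map (swp k Γ)) _ (hμ.isUnit.map (swp k Γ).mapMatrix) a ?_ N hN ?_ ?_
  · intro j
    funext i
    rw [Matrix.map_apply, ha j]
    by_cases hij : i = j
    · subst hij
      rw [Pi.single_eq_same, Pi.single_eq_same, map_one]
    · rw [Pi.single_eq_of_ne hij, Pi.single_eq_of_ne hij, map_zero]
  · have e2 : z.map (swp k Γ) * (μ.map (swp k Γ)) =
        N.map (Int.castRingHom (LaurentPolynomial (MonoidAlgebra k Γ))) * z.map (swp k Γ) := by
      rw [← Matrix.map_mul, hzμ, Matrix.map_mul, Matrix.map_map]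
      congr 2
      funext x
      show swp k Γ ((Int.castRingHom _) x) = (Int.castRingHom _) x
      rw [eq_intCast, eq_intCast, map_intCast]
    rw [Matrix.map_sub _ (map_sub _), Matrix.map_one _ (map_zero _) (map_one _),
      Matrix.map_sub _ (map_sub _), Matrix.map_one _ (map_zero _) (map_one _),
      Matrix.mul_sub, Matrix.sub_mul, Matrix.mul_one, Matrix.one_mul, e2]
  · intro m
    exact hcoh k Γ D (J × Fin m) (Λ × Fin m) (fun y => dg y.1) _ (fun x => c x.1)
      (fun x y h hh => by
        refine hz x.1 y.1 h ?_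
        intro h0
        apply hh
        show ((swp k Γ (z x.1 y.1)).coeff _).coeff h = 0
        rw [coeff_swp, h0]
        rfl)
      (fun x => by
        obtain ⟨j, h, hh⟩ := hc x.1
        have h5 := hrci.2 k Γ D (dg j) h (hreg j)
        rwa [← hh] at h5)

end Pool.Agent.NegK.TW.H82
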